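import Pool.Agent.V5helper72.Jump.Reduc

/-!
# Iterated group jumps are in general not single group jumps: finite outer group

For every nontrivial finite group `H`, every countable group `K` and every relation `E` on a Polish
space which is essentially countable and above `E₀` (by the Glimm-Effros dichotomy: every
essentially countable equivalence relation which is not smooth), the iterated jump
`(E^[ℤ])^[H]` and the single jump `E^[K]` are not Borel bi-reducible.

Here `(E^[ℤ])^[H]` is Borel reducible to `E^[K]` for `K` the (countable) wreath product of `ℤ` and
`H`, so the obstruction is not the descriptive complexity of the iterated jump.  The proof makes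
two hypothetical reductions generically equivariant up to `E` and compares the resulting
correspondences between `K` and the wreath product.
-/

namespace Pool.Agent.Results.MP_9b97c3_lc.FiniteOuter

/-- The `G`-jump `E^[G]` of the relation `E` on `X`, a relation on `G → X`. -/
def Jump (G : Type*) [Group G] {X : Type*} (E : X → X → Prop) (α β : G → X) : Prop :=
  ∃ g : G, ∀ h : G, E (α (g⁻¹ * h)) (β h)

/-- `E` is Borel reducible to `F`. -/
def BorelReducible {X Y : Type*} [TopologicalSpace X] [TopologicalSpace Y]
    (E : X → X → Prop) (F : Y → Y → Prop) : Prop :=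
  ∃ f : X → Y, @Measurable X Y (borel X) (borel Y) f ∧ ∀ x x', E x x' ↔ F (f x) (f x')

/-- `E` and `F` are Borel bi-reducible. -/
def BiReducible {X Y : Type*} [TopologicalSpace X] [TopologicalSpace Y]
    (E : X → X → Prop) (F : Y → Y → Prop) : Prop :=
  BorelReducible E F ∧ BorelReducible F E

/-- `E` is essentially countable: Borel reducible to the orbit equivalence relation of an action
of a countable group by Borel maps on some Polish space. -/
def EssCountable {X : Type*} [TopologicalSpace X] (E : X → X → Prop) : Prop :=
  ∃ (Z : Type) (_ : TopologicalSpace Z) (_ : PolishSpace Z) (Γ : Type) (_ : Group Γ)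
    (_ : Countable Γ) (_ : MulAction Γ Z),
    (∀ g : Γ, @Measurable Z Z (borel Z) (borel Z) (fun z => g • z)) ∧
      BorelReducible E (fun z z' : Z => ∃ g : Γ, g • z = z')

/-- `E₀`: eventual equality of binary sequences. -/
def E0 (x y : ℕ → Bool) : Prop := ∃ n, ∀ m, n ≤ m → x m = y m

theorem result (H K : Type*) [Group H] [Finite H] [Nontrivial H] [Group K] [Countable K]
    (X : Type*) [TopologicalSpace X] [PolishSpace X] (E : X → X → Prop)
    (h0 : BorelReducible E0 E) (hE : EssCountable E) :
    ¬ BiReducible (Jump H (Jump (Multiplicative ℤ) E)) (Jump K E) := by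
  obtain ⟨Z, tZ, pZ, Γ, gΓ, cΓ, aΓ, hact, hr⟩ := hE
  exact Pool.Agent.V5helper72.Jump.finite_final (H := H) (K := K) h0 hact hr

end Pool.Agent.Results.MP_9b97c3_lc.FiniteOuter
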