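import Pool.Agent.V5helper72.Jump.Reduc

/-!
# Iterated group jumps are in general not single group jumps: infinite groups

For all infinite countable groups `G`, `H`, every countable group `K` and every relation `E` on a
Polish space which is either smooth with at least two classes, or essentially countable and above
`E₀`, the iterated jump `(E^[G])^[H]` is not Borel reducible to `E^[K]`.  By the Glimm-Effros
dichotomy (not used here) this covers every essentially countable equivalence relation with at
least two classes.  (Take `E` equality on a two point space and `G = H = ℤ` for a concrete negative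
answer to the question.)

The proof is by Baire category: a Borel map between products which is a homomorphism for the
coordinatewise action of a large product of countable groups depends, locally and generically, on
finitely many coordinates only.
-/

namespace Pool.Agent.Results.MP_9b97c3_lc.InfiniteOuter

/-- The `G`-jump `E^[G]` of the relation `E` on `X`, a relation on `G → X`. -/
def Jump (G : Type*) [Group G] {X : Type*} (E : X → X → Prop) (α β : G → X) : Prop :=
  ∃ g : G, ∀ h : G, E (α (g⁻¹ * h)) (β h)

/-- `E` is Borel reducible to `F`. -/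
def BorelReducible {X Y : Type*} [TopologicalSpace X] [TopologicalSpace Y]
    (E : X → X → Prop) (F : Y → Y → Prop) : Prop :=
  ∃ f : X → Y, @Measurable X Y (borel X) (borel Y) f ∧ ∀ x x', E x x' ↔ F (f x) (f x')

/-- `E` is smooth: Borel reducible to equality on some Polish space. -/
def Smooth {X : Type*} [TopologicalSpace X] (E : X → X → Prop) : Prop :=
  ∃ (Y : Type) (_ : TopologicalSpace Y) (_ : PolishSpace Y),
    BorelReducible E (fun y y' : Y => y = y')

/-- `E` is essentially countable: Borel reducible to the orbit equivalence relation of an action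
of a countable group by Borel maps on some Polish space. -/
def EssCountable {X : Type*} [TopologicalSpace X] (E : X → X → Prop) : Prop :=
  ∃ (Z : Type) (_ : TopologicalSpace Z) (_ : PolishSpace Z) (Γ : Type) (_ : Group Γ)
    (_ : Countable Γ) (_ : MulAction Γ Z),
    (∀ g : Γ, @Measurable Z Z (borel Z) (borel Z) (fun z => g • z)) ∧
      BorelReducible E (fun z z' : Z => ∃ g : Γ, g • z = z')

/-- `E₀`: eventual equality of binary sequences. -/
def E0 (x y : ℕ → Bool) : Prop := ∃ n, ∀ m, n ≤ m → x m = y m

/-- The smooth case. -/
theorem smooth_case (G H K : Type*) [Group G] [Countable G] [Infinite G]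
    [Group H] [Countable H] [Infinite H] [Group K] [Countable K]
    (X : Type*) [TopologicalSpace X] (E : X → X → Prop)
    (hE : Smooth E) (h2 : ∃ x y, ¬ E x y) :
    ¬ BorelReducible (Jump H (Jump G E)) (Jump K E) := by
  rintro ⟨f, hf, hred⟩
  obtain ⟨Y, tY, pY, r, hr, hr'⟩ := hE
  obtain ⟨a, b, hab⟩ := h2
  let _ : MeasurableSpace Y := borel Y
  have _ : BorelSpace Y := ⟨rfl⟩
  let e : (H → G → Bool) → (H → G → X) := fun x h g => if x h g then a else b
  have he : Continuous e := by
    apply continuous_pi
    intro h
    apply continuous_pi
    intro g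
    have h1 : Continuous (fun c : Bool => if c then a else b) := continuous_of_discreteTopology
    exact h1.comp ((continuous_apply g).comp (continuous_apply h))
  let F : (H → G → Bool) → (K → Y) := fun x k => r (f (e x) k)
  have hF : Measurable F := by
    apply measurable_pi_lambda
    intro k
    have h1 : @Measurable _ _ (borel (H → G → Bool)) (borel (H → G → X)) e :=
      Continuous.borel_measurable he
    have h2 : @Measurable _ _ (borel (K → X)) (borel X) (fun z : K → X => z k) :=
      Continuous.borel_measurable (continuous_apply k)
    have h3 : @Measurable _ _ (borel (H → G → Bool)) (borel Y) (fun x => r (f (e x) k)) :=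
      hr.comp (h2.comp (hf.comp h1))
    have h4 : (MeasurableSpace.pi : MeasurableSpace (H → G → Bool)) = borel (H → G → Bool) :=
      BorelSpace.measurable_eq
    rw [← h4] at h3
    exact h3
  have hEr : ∀ c d : Bool, E (if c then a else b) (if d then a else b) ↔ c = d := by
    intro c d
    have hba : ¬ E b a := by
      intro h
      apply hab
      rw [hr'] at h ⊢
      exact h.symm
    have haa : E a a := (hr' a a).2 rfl
    have hbb : E b b := (hr' b b).2 rfl
    cases c <;> cases d <;> simp [hab, hba, haa, hbb]
  apply Pool.Agent.V5helper72.Jump.smooth_core F hF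
  intro x y
  have key := hred (e x) (e y)
  constructor
  · rintro ⟨h₀, hh⟩
    have h1 : Jump H (Jump G E) (e x) (e y) := by
      refine ⟨h₀, fun h => ?_⟩
      obtain ⟨g₀, hg⟩ := hh h
      refine ⟨g₀, fun g => ?_⟩
      exact (hEr _ _).2 (hg g)
    obtain ⟨k, hk⟩ := key.1 h1
    exact ⟨k, fun j => (hr' _ _).1 (hk j)⟩
  · rintro ⟨k, hk⟩
    have h1 : Jump K E (f (e x)) (f (e y)) := ⟨k, fun j => (hr' _ _).2 (hk j)⟩
    obtain ⟨h₀, hh⟩ := key.2 h1
    refine ⟨h₀, fun h => ?_⟩
    obtain ⟨g₀, hg⟩ := hh h
    refine ⟨g₀, fun g => ?_⟩
    exact (hEr _ _).1 (hg g)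

theorem result (G H K : Type*) [Group G] [Countable G] [Infinite G]
    [Group H] [Countable H] [Infinite H] [Group K] [Countable K]
    (X : Type*) [TopologicalSpace X] [PolishSpace X] (E : X → X → Prop)
    (hE : (Smooth E ∧ ∃ x y, ¬ E x y) ∨ (EssCountable E ∧ BorelReducible E0 E)) :
    ¬ BorelReducible (Jump H (Jump G E)) (Jump K E) := by
  rcases hE with ⟨h1, h2⟩ | ⟨h1, h2⟩
  · exact smooth_case G H K X E h1 h2
  · obtain ⟨Z, tZ, pZ, Γ, gΓ, cΓ, aΓ, hact, hr⟩ := h1
    exact Pool.Agent.V5helper72.Jump.countable_final (G := G) (H := H) (K := K) h2 hact hr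

end Pool.Agent.Results.MP_9b97c3_lc.InfiniteOuter
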